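import Pool.Agent.Q92.CS.Mat

set_option autoImplicit false

/-!
# `G(M_m(A)) = G(A)` for all unital C*-algebras

Proof: both classes contain the cluster graphs and consist of chordal graphs. If one of them
contains a graph which is not a cluster graph then the algebra has Douglas factorization
(`x* x ≤ s* s` implies `x = w s` with `‖w‖ ≤ 1`). Douglas factorization passes from `M_m(A)` to the
corner `A`, and from `A` to `M_m(A)` (transfer lemma for families of columns with the same Gram
matrix). A unital C*-algebra with Douglas factorization has all chordal graphs.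
-/

namespace Pool.Agent.Results.MP_204515_an.UnitalAmplification

variable {A : Type*} [CStarAlgebra A] [PartialOrder A] [StarOrderedRing A]

/-- The principal submatrix of `M` on the set `K` of vertices. -/
def principal {n : ℕ} (M : CStarMatrix (Fin n) (Fin n) A) (K : Finset (Fin n)) :
    CStarMatrix K K A :=
  CStarMatrix.ofMatrix fun i j => M i j

/-- `Γ ∈ G(A)`: every matrix over `A` whose principal submatrices on the cliques of `Γ` are positive
has a positive completion. -/
def InG (A : Type*) [CStarAlgebra A] [PartialOrder A] [StarOrderedRing A] {n : ℕ}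
    (Γ : SimpleGraph (Fin n)) : Prop :=
  ∀ M : CStarMatrix (Fin n) (Fin n) A,
    (∀ K : Finset (Fin n), Γ.IsClique K → 0 ≤ principal M K) →
    ∃ Y : CStarMatrix (Fin n) (Fin n) A, 0 ≤ Y ∧ ∀ i j, (i = j ∨ Γ.Adj i j) → Y i j = M i j

lemma inG_of_subsingleton [Subsingleton A] {n : ℕ} (Γ : SimpleGraph (Fin n)) : InG A Γ :=
  fun _ _ => ⟨0, le_rfl, fun _ _ _ => Subsingleton.elim _ _⟩

/-- **Theorem.** `G(M_m(A)) = G(A)` for every unital C*-algebra `A` and every `m ≥ 1`. -/
theorem result (A : Type*) [CStarAlgebra A] [PartialOrder A] [StarOrderedRing A] (m : ℕ)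
    (hm : 1 ≤ m) (n : ℕ) (Γ : SimpleGraph (Fin n)) :
    InG (CStarMatrix (Fin m) (Fin m) A) Γ ↔ InG A Γ := by
  rcases subsingleton_or_nontrivial A with hA | hA
  · have : Subsingleton (CStarMatrix (Fin m) (Fin m) A) := inferInstance
    exact ⟨fun _ => inG_of_subsingleton Γ, fun _ => inG_of_subsingleton Γ⟩
  · exact Q92.CS.inG_matrix hm Γ

end Pool.Agent.Results.MP_204515_an.UnitalAmplification
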